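import Pool.Agent.Lib.MP_fa364e_pr.Mg.G002
import Pool.Agent.Lib.MP_fa364e_pr.Mg.G003

/-! Hypothesis B, further improvements: deterministic part. -/

namespace FPPX

open MeasureTheory ProbabilityTheory Filter Set
open scoped Topology

variable {d : ℕ} {Ω : Type} [MeasurableSpace Ω] {P : Measure Ω} [IsProbabilityMeasure P]

private lemma B1A_mul_rpow {C m e s : ℝ} (hC : 0 ≤ C) (hm : 0 < m) :
    (C * m ^ e) ^ s = C ^ s * m ^ (e * s) := by
  rw [Real.mul_rpow hC (Real.rpow_nonneg hm.le _), ← Real.rpow_mul hm.le]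

/-- deterministic part: a contradiction from the existence of one good sample -/
theorem LRM.B1_det (M : LRM d P) {κ γ a c : ℝ} (hκ : 0 < κ) (hκγ : κ < γ) (hγ : γ < 1)
    (ha : a = (γ - κ) * γ * (1 - γ) / (128 * (d + 1))) (hc : c = (γ - κ) / (16 * (d + 1)))
    (C2 : ℝ) (hC2 : 1 ≤ C2) :
    ∃ Λ0 C7 : ℝ, 1 ≤ Λ0 ∧ 1 ≤ C7 ∧ ∀ᶠ m : ℝ in atTop, ∀ ω : Ω,
      M.CutProp ω (1 / (1 + c)) (a / 4) (1 / M.cm + 1) C2 (m ^ (1 + c)) →
      M.UpAt ω (m ^ (4 : ℝ)) (C7 * m ^ (1 + c)) (γ + a / 4) →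
      M.LowAt ω (m ^ (4 : ℝ)) (C7 * m ^ (1 + c)) (γ + a / 4) →
      M.LowAt ω (m ^ (4 : ℝ)) (2 * m) (γ + a / 4) →
      M.UpAt ω (m ^ (4 : ℝ)) (C7 * m ^ (1 - c * (1 - γ))) (γ + a / 4) →
      ∀ (ν : E d →ₗ[ℝ] ℝ) (p : E d), Supp M.μ ν p →
      ∀ G : Finset (V d),
        (∀ b : V d, |ν (tr b)| ≤ Λ0 * m ^ (2 * c) * m ^ (1 - c * (1 - γ)) →
          M.μ (tr b) - ν (tr b) ≤ Λ0 * m ^ (2 * c) * m ^ (γ - a) →
          (∃ A ∈ G, m ^ (1 - c * (1 - γ)) ≤ ν (tr (b - A)) ∧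
            ν (tr (b - A)) ≤ 2 * m ^ (1 - c * (1 - γ)) ∧
            M.μ (tr (b - A)) - ν (tr (b - A)) ≤ m ^ (γ - a)) ∧
          (∃ B ∈ G, m ^ (1 - c * (1 - γ)) ≤ ν (tr (B - b)) ∧
            ν (tr (B - b)) ≤ 2 * m ^ (1 - c * (1 - γ)) ∧
            M.μ (tr (B - b)) - ν (tr (B - b)) ≤ m ^ (γ - a))) →
        (∀ A ∈ G, ∀ B ∈ G, nm (B - A) ≤ C7 * m →
          ∫ ω', M.t ω' 0 (B - A) ∂P ≤ M.t ω A B + m ^ (γ - a)) →
        ¬ ∀ X : V d, M.cm / 2 * m ≤ ν (tr X) → nm X ≤ C7 * m →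
          ν (tr X) + m ^ (γ - a / 2) / 2 ≤ ∫ ω', M.t ω' 0 X ∂P := by
  have hγ0 : 0 < γ := hκ.trans hκγ
  have hL : 0 < 1 - γ := by linarith
  have hd : (0 : ℝ) ≤ d := Nat.cast_nonneg d
  have hd1 : (0 : ℝ) < d + 1 := by linarith
  have hc0 : 0 < c := by rw [hc]; exact div_pos (by linarith) (by positivity)
  have hc16 : c ≤ 1 / 16 := by
    rw [hc, div_le_div_iff₀ (by positivity) (by norm_num)]
    nlinarith
  have hac : 8 * a = c * γ * (1 - γ) := by
    rw [ha, hc]; field_simp; ring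
  have ha0 : 0 < a := by
    have : 0 < c * γ * (1 - γ) := by positivity
    linarith
  have hcγ : 0 < c * γ := mul_pos hc0 hγ0
  have hcL : 0 < c * (1 - γ) := mul_pos hc0 hL
  have haC : a ≤ c / 32 := by
    have h1 : γ * (1 - γ) ≤ 1 / 4 := by nlinarith [sq_nonneg (γ - 1 / 2)]
    have h2 : c * (γ * (1 - γ)) ≤ c * (1 / 4) := mul_le_mul_of_nonneg_left h1 hc0.le
    linarith
  have h8L : 8 * a ≤ c * (1 - γ) := by nlinarith
  have h8γ : 8 * a ≤ c * γ := by nlinarith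
  have haγ : a ≤ γ / 128 := by nlinarith
  have haL : a ≤ (1 - γ) / 128 := by nlinarith
  have hca : c * a ≤ a / 16 := by nlinarith
  have hca0 : 0 < c * a := mul_pos hc0 ha0
  have hcLa : 0 < c * (1 - γ) * a := mul_pos hcL ha0
  have hcLle : c * (1 - γ) ≤ (1 - γ) / 16 := by nlinarith
  have hn := M.isNm
  have hcm : 0 < M.cm := hn.cpos
  set KM : ℝ := max M.CM 1 with hKM
  have hKM1 : 1 ≤ KM := le_max_right _ _
  have hKM0 : 0 < KM := by linarith
  have hCK : M.CM ≤ KM := le_max_left _ _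
  have hcmi : 0 < 1 / M.cm := by positivity
  set C7 : ℝ := 7 * (1 / M.cm) + C2 + 4 with hC7
  have hC71 : 1 ≤ C7 := by rw [hC7]; linarith
  have hC70 : 0 ≤ C7 := by linarith
  have hK80 : 0 < 1 / (80 * KM) := by positivity
  have hK4 : 0 < 1 / (4 * KM) := by positivity
  refine ⟨1, C7, le_refl _, hC71, ?_⟩
  filter_upwards [eventually_ge_atTop (1 : ℝ),
    ev_rpow_le C2 (B := 1 / 2) (by norm_num) (show 1 + c < 4 by linarith),
    ev_rpow_le (3 * (1 / M.cm)) (B := 1 / 2) (by norm_num)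
      (show 1 - c * (1 - γ) < 4 by linarith),
    ev_rpow_le (KM * C2) (B := 1) (by norm_num)
      (show 1 + c < 2 * c + (1 - c * (1 - γ)) by linarith),
    ev_rpow_le KM (B := 1 / 3) (by norm_num) (show 0 < 2 * c + (γ - a) by linarith),
    ev_rpow_le (3 * C7 ^ (γ + a / 4)) (B := 1 / 3) (by norm_num)
      (show (1 + c) * (γ + a / 4) < 2 * c + (γ - a) by linarith),
    ev_rpow_le 1 (B := 1 / 3) (by norm_num)
      (show (1 + c) * (a / 2) < 2 * c + (γ - a) by linarith),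
    ev_rpow_le (C7 ^ (γ + a / 4)) (B := 1) (by norm_num)
      (show (1 - c * (1 - γ)) * (γ + a / 4) < γ - a by linarith),
    ev_rpow_le 5 (B := 1 / 4) (by norm_num) (show γ - a < γ - a / 2 by linarith),
    ev_rpow_le (2 ^ (γ + a / 4)) (B := M.cm / 4) (by positivity)
      (show γ + a / 4 < 1 by linarith),
    ev_rpow_le (1 / 4) (B := M.cm / 4) (by positivity) (show γ - a / 2 < 1 by linarith),
    ev_rpow_le (1 / 2) hK4 (show 0 < 1 + c by linarith),
    ev_rpow_le 1 hK4 (show 1 < 1 + c by linarith),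
    ev_rpow_le (2 ^ (γ + a / 4)) hK80 (show γ + a / 4 < c + γ - a / 2 by linarith),
    ev_rpow_le KM hK80 (show 0 < c + γ - a / 2 by linarith),
    ev_rpow_le (C7 ^ (γ + a / 4)) hK80
      (show (1 + c) * (γ + a / 4) < c + γ - a / 2 by linarith),
    ev_rpow_le 1 hK80 (show c + (1 + c) * (a / 2) < c + γ - a / 2 by linarith)]
    with m hm1 e1 e2 e3 e4 e5 e6 e7 e8 e9 e10 e11 e12 e13 e14 e15 e16
  intro ω hcut hup hlow hlow2 hup2 ν p hS G hG hGh hbad
  have hm0 : 0 < m := by linarith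
  simp only [Real.rpow_zero, Real.rpow_one, mul_one, one_mul] at e4 e9 e10 e11 e12 e14
  -- abbreviations
  set N : ℝ := m ^ (1 + c) with hN
  set ρ : ℝ := m ^ (1 - c * (1 - γ)) with hρ
  set g : ℝ := m ^ (γ - a) with hg
  have hN1 : 1 ≤ N := Real.one_le_rpow hm1 (by linarith)
  have hN0 : 0 < N := by linarith
  have hmN : m ≤ N := by
    calc m = m ^ (1 : ℝ) := (Real.rpow_one m).symm
      _ ≤ N := Real.rpow_le_rpow_of_exponent_le hm1 (by linarith)
  have hρ0 : 0 < ρ := Real.rpow_pos_of_pos hm0 _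
  have hg0 : 0 < g := Real.rpow_pos_of_pos hm0 _
  have hgρ : g ≤ ρ := Real.rpow_le_rpow_of_exponent_le hm1 (by linarith)
  have hρm : ρ ≤ m := by
    calc ρ ≤ m ^ (1 : ℝ) := Real.rpow_le_rpow_of_exponent_le hm1 (by linarith)
      _ = m := Real.rpow_one m
  have hm4 : m ≤ m ^ (4 : ℝ) := by
    calc m = m ^ (1 : ℝ) := (Real.rpow_one m).symm
      _ ≤ _ := Real.rpow_le_rpow_of_exponent_le hm1 (by norm_num)
  have hm40 : 0 ≤ m ^ (4 : ℝ) := by linarith
  have h1c : (1 + c) ≠ 0 := by linarith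
  have p1 : N ^ (1 / (1 + c)) = m := by
    rw [hN, ← Real.rpow_mul hm0.le, mul_one_div_cancel h1c, Real.rpow_one]
  have p2 : N ^ (1 - 1 / (1 + c) + 2 * (a / 4)) = m ^ (c + (1 + c) * (a / 2)) := by
    rw [hN, ← Real.rpow_mul hm0.le]
    congr 1
    field_simp
    ring
  have p3 : N ^ (2 * (a / 4)) = m ^ ((1 + c) * (a / 2)) := by
    rw [hN, ← Real.rpow_mul hm0.le]
    congr 1
    ring
  have p4 : (C7 * N) ^ (γ + a / 4) = C7 ^ (γ + a / 4) * m ^ ((1 + c) * (γ + a / 4)) :=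
    B1A_mul_rpow hC70 hm0
  have p5 : (C7 * ρ) ^ (γ + a / 4) = C7 ^ (γ + a / 4) * m ^ ((1 - c * (1 - γ)) * (γ + a / 4)) :=
    B1A_mul_rpow hC70 hm0
  have p6 : (2 * m) ^ (γ + a / 4) = 2 ^ (γ + a / 4) * m ^ (γ + a / 4) :=
    Real.mul_rpow (by norm_num) hm0.le
  have p7 : m ^ (2 * c) * ρ = m ^ (2 * c + (1 - c * (1 - γ))) := by
    rw [hρ, ← Real.rpow_add hm0]
  have p8 : m ^ (2 * c) * g = m ^ (2 * c + (γ - a)) := by
    rw [hg, ← Real.rpow_add hm0]
  have p9 : m ^ c * m ^ (γ - a / 2) = m ^ (c + γ - a / 2) := by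
    rw [← Real.rpow_add hm0]; congr 1; ring
  have p10 : m ^ c * m = N := by
    rw [hN, add_comm, Real.rpow_add hm0, Real.rpow_one]
  -- norms
  have hνb : ∀ x : E d, |ν x| ≤ KM * ‖x‖ := fun x =>
    (hn.abs_le hS x).trans (mul_le_mul_of_nonneg_right hCK (norm_nonneg x))
  have hνle : ∀ x : E d, ν x ≤ M.μ x := hS.1
  have hlb : ∀ v : V d, M.cm * nm v ≤ M.μ (tr v) := fun v => hn.lb (tr v)
  have hnp := hn.norm_p hS
  have hpn : ‖p‖ ≤ 1 / M.cm := hnp.2.1
  have hpn2 : 1 / KM ≤ ‖p‖ :=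
    (one_div_le_one_div_of_le hnp.1 hCK).trans hnp.2.2
  -- the endpoint
  obtain ⟨Z, hZ⟩ : ∃ Z : V d, Z = rd (N • p) := ⟨_, rfl⟩
  have hZd : ‖tr Z - N • p‖ ≤ 1 / 2 := by rw [hZ]; exact norm_rd_sub _
  have hNp : ‖N • p‖ = N * ‖p‖ := by rw [norm_smul, Real.norm_of_nonneg hN0.le]
  have hZu : nm Z ≤ (1 / M.cm + 1) * N := by
    have h1 : nm Z ≤ ‖N • p‖ + 1 / 2 := by rw [hZ]; exact nm_rd_le _
    have h2 : N * ‖p‖ ≤ N * (1 / M.cm) := mul_le_mul_of_nonneg_left hpn hN0.le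
    rw [hNp] at h1
    have h3 : (1 / M.cm + 1) * N = N * (1 / M.cm) + N := by ring
    linarith only [h1, h2, h3, hN1]
  have hZl : N * (1 / KM) - 1 / 2 ≤ nm Z := by
    have h1 : ‖N • p‖ ≤ ‖tr Z‖ + ‖tr Z - N • p‖ := by
      have := norm_sub_le (tr Z) (tr Z - N • p)
      simpa using this
    have h2 : N * (1 / KM) ≤ N * ‖p‖ := mul_le_mul_of_nonneg_left hpn2 hN0.le
    rw [hNp] at h1
    have h3 : nm Z = ‖tr Z‖ := rfl
    linarith
  have hνZ : N - KM / 2 ≤ ν (tr Z) := by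
    have h1 := hνb (tr Z - N • p)
    rw [map_sub, map_smul, hS.2.1, smul_eq_mul, mul_one] at h1
    have h2 := (abs_le.1 h1).1
    have h3 : KM * ‖tr Z - N • p‖ ≤ KM * (1 / 2) := mul_le_mul_of_nonneg_left hZd hKM0.le
    linarith
  have hμZ : M.μ (tr Z) ≤ N + KM / 2 := by
    have h1 := hn.sub_le (tr Z) (N • p)
    have h2 := (abs_le.1 h1).2
    have h3 : M.CM * ‖tr Z - N • p‖ ≤ KM * (1 / 2) :=
      mul_le_mul hCK hZd (norm_nonneg _) hKM0.le
    rw [hn.smul, abs_of_nonneg hN0.le, hS.2.2, mul_one] at h2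
    linarith
  obtain ⟨k, x, hx0, hk, hstep, hlast, hxN, -, hsum, hmid, -⟩ := hcut Z hZu
  rw [p1] at hstep hlast
  rw [p2] at hsum
  rw [p3] at hmid
  -- upper bound for the total passage time
  have hC7N : (1 / M.cm + 1) * N ≤ C7 * N := by
    apply mul_le_mul_of_nonneg_right _ hN0.le
    rw [hC7]; linarith
  have hz4 : nm (0 : V d) ≤ m ^ (4 : ℝ) := by rw [nm_zero]; exact hm40
  have htZ : M.t ω 0 Z ≤ N + KM / 2 + (C7 * N) ^ (γ + a / 4) := by
    have h1 := hup 0 Z hz4 (by rw [sub_zero]; exact hZu.trans hC7N)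
    rw [sub_zero] at h1
    linarith
  have hC2N4 : C2 * N ≤ 1 / 2 * m ^ (4 : ℝ) := e1
  have hx4 : ∀ j, j ≤ k → nm (x j) ≤ m ^ (4 : ℝ) := fun j hj =>
    (hxN j hj).trans (by linarith)
  -- confinement
  have hconf : ∀ j, j ≤ k → M.μ (tr (x j)) - ν (tr (x j)) ≤ m ^ (2 * c) * g := by
    intro j hj
    have h1 := hlow 0 (x j) hz4 (by
      rw [sub_zero]
      refine (hxN j hj).trans (mul_le_mul_of_nonneg_right ?_ hN0.le)
      rw [hC7]; linarith)
    rw [sub_zero] at h1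
    have h2 := hlow (x j) Z (hx4 j hj) (by
      refine (nm_sub_le _ _).trans ?_
      have := hxN j hj
      have h3 : C7 * N = (1 / M.cm + 1) * N + C2 * N + (6 * (1 / M.cm) + 3) * N := by
        rw [hC7]; ring
      have h4 : 0 ≤ (6 * (1 / M.cm) + 3) * N := by positivity
      linarith)
    have h3 := hmid j hj
    have h4 : ν (tr Z) - ν (tr (x j)) ≤ M.μ (tr (Z - x j)) := by
      have := hνle (tr (Z - x j))
      rw [tr_sub, map_sub] at this
      rw [tr_sub]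
      exact this
    rw [p8]
    rw [p4] at h1 h2 htZ
    linarith
  have hνx : ∀ j, j ≤ k → |ν (tr (x j))| ≤ m ^ (2 * c) * ρ := by
    intro j hj
    rw [p7]
    refine (hνb _).trans ?_
    have h1 : KM * ‖tr (x j)‖ ≤ KM * (C2 * N) := mul_le_mul_of_nonneg_left (hxN j hj) hKM0.le
    linarith
  -- the main estimate for one block
  have hmain : ∀ j, j < k → ν (tr (x (j + 1) - x j)) + m ^ (γ - a / 2) / 4 ≤
      M.t ω (x j) (x (j + 1)) := by
    intro j hj
    obtain ⟨hs1, hs2⟩ := hstep j hj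
    rcases lt_or_ge (ν (tr (x (j + 1) - x j))) (M.cm / 2 * m) with hlt | hge
    · have h1 := hlow2 (x j) (x (j + 1)) (hx4 j hj.le) hs2
      have h2 := hlb (x (j + 1) - x j)
      have h3 : M.cm * m ≤ M.cm * nm (x (j + 1) - x j) := mul_le_mul_of_nonneg_left hs1 hcm.le
      rw [p6] at h1
      linarith
    · obtain ⟨⟨A, hAG, hA1, hA2, hA3⟩, -⟩ := hG (x j)
        (by rw [one_mul]; exact hνx j hj.le) (by rw [one_mul]; exact hconf j hj.le)
      obtain ⟨-, ⟨B, hBG, hB1, hB2, hB3⟩⟩ := hG (x (j + 1))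
        (by rw [one_mul]; exact hνx (j + 1) hj) (by rw [one_mul]; exact hconf (j + 1) hj)
      have hcm3 : ∀ y : ℝ, M.cm * y ≤ 3 * ρ → y ≤ 3 * (1 / M.cm) * ρ := by
        intro y hy
        have h1 : y = (1 / M.cm) * (M.cm * y) := by field_simp
        rw [h1]
        have h2 := mul_le_mul_of_nonneg_left hy hcmi.le
        linarith
      have hnA : nm (x j - A) ≤ 3 * (1 / M.cm) * ρ := by
        apply hcm3
        have := hlb (x j - A)
        linarith
      have hnB : nm (B - x (j + 1)) ≤ 3 * (1 / M.cm) * ρ := by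
        apply hcm3
        have := hlb (B - x (j + 1))
        linarith
      have h3ρ : 3 * (1 / M.cm) * ρ ≤ C7 * ρ := by
        apply mul_le_mul_of_nonneg_right _ hρ0.le
        rw [hC7]; linarith
      have h3m : 3 * (1 / M.cm) * ρ ≤ 3 * (1 / M.cm) * m :=
        mul_le_mul_of_nonneg_left hρm (by positivity)
      have hA4 : nm A ≤ m ^ (4 : ℝ) := by
        have h1 : nm A ≤ nm (x j) + nm (x j - A) := by
          have := nm_sub_le (x j) (x j - A)
          simpa using this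
        have h2 := hxN j hj.le
        linarith
      have htA := hup2 A (x j) hA4 (hnA.trans h3ρ)
      have htB := hup2 (x (j + 1)) B (hx4 (j + 1) hj) (hnB.trans h3ρ)
      rw [p5] at htA htB
      have hBA : nm (B - A) ≤ C7 * m := by
        have h1 : B - A = (B - x (j + 1)) + ((x (j + 1) - x j) + (x j - A)) := by abel
        have h2 := nm_add (B - x (j + 1)) ((x (j + 1) - x j) + (x j - A))
        have h3 := nm_add (x (j + 1) - x j) (x j - A)
        rw [← h1] at h2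
        have h4 : C7 * m = 3 * (1 / M.cm) * m + 3 * (1 / M.cm) * m + 2 * m +
            ((1 / M.cm) + C2 + 2) * m := by rw [hC7]; ring
        have h5 : 0 ≤ ((1 / M.cm) + C2 + 2) * m := by positivity
        linarith
      have hh := hGh A hAG B hBG hBA
      have hνBA : ν (tr (B - A)) = ν (tr (B - x (j + 1))) + ν (tr (x (j + 1) - x j)) +
          ν (tr (x j - A)) := by
        simp only [tr_sub, map_sub]; ring
      have hb := hbad (B - A) (by rw [hνBA]; linarith) hBA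
      have ht1 := M.t_tri ω A (x j) B
      have ht2 := M.t_tri ω (x j) (x (j + 1)) B
      linarith
  -- sum of the blocks
  have hsumlow : ∀ n, n ≤ k → ν (tr (x n)) + n * (m ^ (γ - a / 2) / 4) ≤
      ∑ l ∈ Finset.range n, M.t ω (x l) (x (l + 1)) := by
    intro n
    induction n with
    | zero =>
      intro _
      simp [hx0, tr_zero]
    | succ n ih =>
      intro hn'
      have h1 := ih (by omega)
      have h2 := hmain n (by omega)
      rw [Finset.sum_range_succ]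
      rw [tr_sub, map_sub] at h2
      push_cast
      linarith
  have hlastlow : ν (tr Z) - ν (tr (x k)) - (2 * m) ^ (γ + a / 4) ≤ M.t ω (x k) Z := by
    have h1 := hlow2 (x k) Z (hx4 k le_rfl) (by linarith)
    have h2 := hνle (tr (Z - x k))
    rw [tr_sub, map_sub] at h2
    rw [tr_sub] at h1
    linarith
  -- number of blocks
  have hlen : ∀ n, n ≤ k → nm (x n) ≤ n * (2 * m) := by
    intro n
    induction n with
    | zero =>
      intro _
      simp [hx0, nm_zero]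
    | succ n ih =>
      intro hn'
      have h1 := ih (by omega)
      have h2 := (hstep n (by omega)).2
      have h3 : nm (x (n + 1)) ≤ nm (x n) + nm (x (n + 1) - x n) := by
        have := nm_add (x n) (x (n + 1) - x n)
        simpa using this
      push_cast
      linarith
  have hkN : N * (1 / KM) - 1 / 2 ≤ k * (2 * m) + m := by
    have h1 := hlen k le_rfl
    have h3 : nm Z ≤ nm (x k) + nm (Z - x k) := by
      have := nm_add (x k) (Z - x k)
      simpa using this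
    linarith
  have hKM' : 1 / (4 * KM) = 1 / KM / 4 := by field_simp
  have hkc : 1 / (4 * KM) * m ^ c ≤ k := by
    have h1 : 1 / (4 * KM) * N * 2 ≤ k * (2 * m) := by
      rw [hKM'] at e11 e12 ⊢
      linarith
    have h2 : 1 / (4 * KM) * m ^ c * (2 * m) ≤ k * (2 * m) := by
      calc 1 / (4 * KM) * m ^ c * (2 * m) = 1 / (4 * KM) * (m ^ c * m) * 2 := by ring
        _ = 1 / (4 * KM) * N * 2 := by rw [p10]
        _ ≤ _ := h1
    exact le_of_mul_le_mul_right h2 (by linarith)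
  have hq0 : 0 < m ^ (γ - a / 2) / 4 := by positivity
  have hfin1 : 1 / (16 * KM) * m ^ (c + γ - a / 2) ≤ k * (m ^ (γ - a / 2) / 4) := by
    calc 1 / (16 * KM) * m ^ (c + γ - a / 2)
        = 1 / (4 * KM) * m ^ c * (m ^ (γ - a / 2) / 4) := by
          rw [← p9]; field_simp; ring
      _ ≤ _ := mul_le_mul_of_nonneg_right hkc hq0.le
  have h80 : 1 / (80 * KM) * m ^ (c + γ - a / 2) * 5 = 1 / (16 * KM) * m ^ (c + γ - a / 2) := by
    field_simp; ring
  have hpos : 0 < 1 / (80 * KM) * m ^ (c + γ - a / 2) := by positivity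
  have hs := hsumlow k le_rfl
  rw [p4] at htZ
  rw [p6] at hlastlow
  linarith

end FPPX
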