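import Mathlib

/-! A convex function with a large drop has a large second difference at a fine mesh. -/

namespace FPPX

open Set

/-- second differences of convex functions increase with the mesh -/
private theorem second_diff_mono_aux (φ : ℝ → ℝ) (hφ : ConvexOn ℝ univ φ) (t h T : ℝ)
    (hh : 0 ≤ h) (hT : h ≤ T) :
    φ (t + h) + φ (t - h) ≤ φ (t + T) + φ (t - T) := by
  rcases eq_or_lt_of_le (hh.trans hT) with h0 | hpos
  · have h1 : h = 0 := le_antisymm (by rw [h0]; exact hT) hh
    rw [← h0, h1]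
  · have hl0 : 0 ≤ (T + h) / (2 * T) := by positivity
    have hl1 : 0 ≤ (T - h) / (2 * T) := div_nonneg (by linarith) (by positivity)
    have hsum : (T + h) / (2 * T) + (T - h) / (2 * T) = 1 := by
      field_simp
      ring
    have e1 := hφ.2 (mem_univ (t + T)) (mem_univ (t - T)) hl0 hl1 hsum
    have e2 := hφ.2 (mem_univ (t - T)) (mem_univ (t + T)) hl0 hl1 hsum
    have x1 : ((T + h) / (2 * T)) • (t + T) + ((T - h) / (2 * T)) • (t - T) = t + h := by
      simp only [smul_eq_mul]
      field_simp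
      ring
    have x2 : ((T + h) / (2 * T)) • (t - T) + ((T - h) / (2 * T)) • (t + T) = t - h := by
      simp only [smul_eq_mul]
      field_simp
      ring
    rw [x1] at e1
    rw [x2] at e2
    simp only [smul_eq_mul] at e1 e2
    have h3 : (T + h) / (2 * T) = 1 - (T - h) / (2 * T) := by linarith
    rw [h3] at e1 e2
    nlinarith [e1, e2]

theorem chord (φ : ℝ → ℝ) (hφ : ConvexOn ℝ univ φ) (hφ0 : φ 0 = 0) (a b E1 E0 : ℝ) (ha : a < 0)
    (hb : 0 < b) (hφa : φ a = E1) (hφb : φ b = E1) (hE1 : 0 < E1) (K : ℕ) (hK : 4 ≤ K)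
    (hE : (K : ℝ) ^ 2 * E0 ≤ E1) :
    ∃ t : ℝ, a + (b - a) / K ≤ t ∧ t + (b - a) / K ≤ b ∧
      E0 ≤ φ (t + (b - a) / K) + φ (t - (b - a) / K) - 2 * φ t := by
  by_contra hcon
  have H : ∀ t : ℝ, a + (b - a) / K ≤ t → t + (b - a) / K ≤ b →
      φ (t + (b - a) / K) + φ (t - (b - a) / K) - 2 * φ t < E0 := by
    intro t h1 h2
    by_contra h3
    exact hcon ⟨t, h1, h2, not_lt.1 h3⟩
  have hK' : (4 : ℝ) ≤ K := by exact_mod_cast hK
  have hK0 : (0 : ℝ) < K := by linarith
  set h : ℝ := (b - a) / K with hh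
  have hab : 0 < b - a := by linarith
  have hpos : 0 < h := div_pos hab hK0
  have hKh : (K : ℝ) * h = b - a := by
    rw [hh]
    field_simp
  have h4 : 4 * h ≤ b - a := by
    rw [← hKh]
    exact mul_le_mul_of_nonneg_right hK' hpos.le
  -- E0 is positive
  have hE0 : 0 < E0 := by
    have h1 := H ((a + b) / 2) (by linarith) (by linarith)
    have h2 := second_diff_mono_aux φ hφ ((a + b) / 2) 0 h le_rfl hpos.le
    simp only [add_zero, sub_zero] at h2
    linarith
  set c : ℝ := E0 / (2 * h ^ 2) with hc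
  have hch : c * (2 * h ^ 2) = E0 := by
    rw [hc]
    field_simp
  have hcpos : 0 < c := by positivity
  set u : ℕ → ℝ := fun i => φ (a + i * h) + c * ((i * h) * (b - a - i * h)) with hu
  have hu0 : u 0 = E1 := by simp [hu, hφa]
  have huK : u K = E1 := by
    simp only [hu]
    rw [hKh, add_sub_cancel, hφb]
    ring
  have humin : ∀ i, i ≤ K → E1 ≤ u i := by
    obtain ⟨m, hm, hmin⟩ := Finset.exists_min_image (Finset.range (K + 1)) u ⟨0, by simp⟩
    have hmK : m ≤ K := by simpa [Nat.lt_succ_iff] using hm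
    suffices hs : E1 ≤ u m by
      intro i hi
      exact hs.trans (hmin i (by simpa [Nat.lt_succ_iff] using hi))
    by_contra hlt
    rw [not_le] at hlt
    have hm0 : m ≠ 0 := by
      rintro rfl
      linarith
    have hmK' : m ≠ K := by
      rintro rfl
      linarith
    have hm1 : 1 ≤ m := Nat.one_le_iff_ne_zero.2 hm0
    have hm2 : m + 1 ≤ K := lt_of_le_of_ne hmK hmK'
    have hm1' : (1 : ℝ) ≤ m := by exact_mod_cast hm1
    have hm2' : (m : ℝ) + 1 ≤ K := by exact_mod_cast hm2
    have g1 := hmin (m + 1) (by simp; omega)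
    have g2 := hmin (m - 1) (by simp; omega)
    have hD := H (a + m * h) (by nlinarith) (by nlinarith)
    simp only [hu] at g1 g2
    rw [Nat.cast_sub hm1] at g2
    push_cast at g1 g2
    have k1 : a + (m + 1) * h = a + m * h + h := by ring
    have k2 : a + ((m : ℝ) - 1) * h = a + m * h - h := by ring
    rw [k1] at g1
    rw [k2] at g2
    nlinarith [g1, g2, hD, hch]
  have hquad : ∀ i : ℕ, c * ((i * h) * (b - a - i * h)) ≤ E1 / 8 := by
    intro i
    have h1 : ((i : ℝ) * h) * (b - a - i * h) ≤ (b - a) ^ 2 / 4 := by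
      nlinarith [sq_nonneg (b - a - 2 * (i * h))]
    have h2 : c * ((b - a) ^ 2 / 4) = K ^ 2 * E0 / 8 := by
      rw [← hKh, ← hch]
      ring
    calc c * ((i * h) * (b - a - i * h)) ≤ c * ((b - a) ^ 2 / 4) :=
          mul_le_mul_of_nonneg_left h1 hcpos.le
      _ = K ^ 2 * E0 / 8 := h2
      _ ≤ E1 / 8 := by linarith
  have hlow : ∀ i : ℕ, i ≤ K → 7 / 8 * E1 ≤ φ (a + i * h) := by
    intro i hi
    have h1 := humin i hi
    have h2 := hquad i
    simp only [hu] at h1
    linarith
  have hE0' : E0 ≤ E1 / 16 := by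
    have : 16 * E0 ≤ (K : ℝ) ^ 2 * E0 := by
      apply mul_le_mul_of_nonneg_right _ hE0.le
      nlinarith
    linarith
  rcases le_or_gt h (-a) with hcase | hcase
  · -- some grid point lies to the left of 0 with a left neighbour
    set i : ℕ := ⌊(-a) / h⌋₊ with hi
    have hq : 0 ≤ (-a) / h := div_nonneg (by linarith) hpos.le
    have hi1 : (i : ℝ) ≤ (-a) / h := Nat.floor_le hq
    have hi2 : (-a) / h < i + 1 := Nat.lt_floor_add_one _
    have hi3 : 1 ≤ i := by
      rw [hi, Nat.one_le_floor_iff]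
      rw [le_div_iff₀ hpos]
      linarith
    have hi1' : (i : ℝ) * h ≤ -a := by
      rwa [le_div_iff₀ hpos] at hi1
    have hi2' : -a < (i + 1) * h := by
      rwa [div_lt_iff₀ hpos] at hi2
    have hiK : i + 1 ≤ K := by
      have : (i : ℝ) < K := by
        have h1 : (i : ℝ) * h < K * h := by rw [hKh]; linarith
        exact lt_of_mul_lt_mul_right h1 hpos.le
      exact_mod_cast this
    have hi3' : (1 : ℝ) ≤ i := by exact_mod_cast hi3
    have hiK' : (i : ℝ) + 1 ≤ K := by exact_mod_cast hiK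
    set θ : ℝ := (-(a + i * h)) / h with hθ
    have hθ0 : 0 ≤ θ := div_nonneg (by linarith) hpos.le
    have hθ1 : θ ≤ 1 := by
      rw [hθ, div_le_one hpos]
      linarith
    have hθh : θ * h = -(a + i * h) := by
      rw [hθ]
      field_simp
    have hc1 := hφ.2 (mem_univ (a + i * h - h)) (mem_univ (0 : ℝ))
      (show 0 ≤ θ / (1 + θ) by positivity) (show 0 ≤ 1 / (1 + θ) by positivity)
      (by field_simp; ring)
    have hx : (θ / (1 + θ)) • (a + i * h - h) + (1 / (1 + θ)) • (0 : ℝ) = a + i * h := by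
      have hne : (1 : ℝ) + θ ≠ 0 := by positivity
      have key : θ * (a + i * h - h) = (1 + θ) * (a + i * h) := by
        linear_combination (-1) * hθh
      rw [smul_eq_mul, smul_zero, add_zero, div_mul_eq_mul_div, key, mul_div_cancel_left₀ _ hne]
    rw [hx, hφ0] at hc1
    simp only [smul_eq_mul, mul_zero, add_zero] at hc1
    have hc2 : φ (a + i * h) * (1 + θ) ≤ θ * φ (a + i * h - h) := by
      rw [div_mul_eq_mul_div, le_div_iff₀ (by positivity)] at hc1
      exact hc1
    have hD := H (a + i * h) (by nlinarith) (by nlinarith)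
    have l1 := hlow i (by omega)
    have l2 := hlow (i + 1) hiK
    push_cast at l2
    have k1 : a + (i + 1) * h = a + i * h + h := by ring
    rw [k1] at l2
    have hm1 : θ * φ (a + i * h - h) ≤ θ * (E0 + 2 * φ (a + i * h) - φ (a + i * h + h)) :=
      mul_le_mul_of_nonneg_left (by linarith) hθ0
    have hm2 : θ * (7 / 8 * E1) ≤ θ * φ (a + i * h + h) := mul_le_mul_of_nonneg_left l2 hθ0
    have hm3 : (1 - θ) * (7 / 8 * E1) ≤ (1 - θ) * φ (a + i * h) :=
      mul_le_mul_of_nonneg_left l1 (by linarith)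
    have hm4 : θ * E0 ≤ 1 * E0 := mul_le_mul_of_nonneg_right hθ1 hE0.le
    nlinarith
  · -- 0 is in the first cell
    set θ : ℝ := (-a) / h with hθ
    have hθ0 : 0 ≤ θ := div_nonneg (by linarith) hpos.le
    have hθ1 : θ ≤ 1 := by
      rw [hθ, div_le_one hpos]
      linarith
    have hθh : θ * h = -a := by
      rw [hθ]
      field_simp
    have h2θ : 0 < 2 - θ := by linarith
    have hc1 := hφ.2 (mem_univ (a + h + h)) (mem_univ (0 : ℝ))
      (show 0 ≤ (1 - θ) / (2 - θ) from div_nonneg (by linarith) h2θ.le)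
      (show 0 ≤ 1 / (2 - θ) by positivity) (by
        have := h2θ.ne'
        field_simp
        ring)
    have hx : ((1 - θ) / (2 - θ)) • (a + h + h) + (1 / (2 - θ)) • (0 : ℝ) = a + h := by
      have key : (1 - θ) * (a + h + h) = (2 - θ) * (a + h) := by
        linear_combination (-1) * hθh
      rw [smul_eq_mul, smul_zero, add_zero, div_mul_eq_mul_div, key,
        mul_div_cancel_left₀ _ h2θ.ne']
    rw [hx, hφ0] at hc1
    simp only [smul_eq_mul, mul_zero, add_zero] at hc1
    have hc2 : φ (a + h) * (2 - θ) ≤ (1 - θ) * φ (a + h + h) := by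
      rw [div_mul_eq_mul_div, le_div_iff₀ h2θ] at hc1
      exact hc1
    have hD := H (a + h) (by linarith) (by linarith)
    have l1 := hlow 1 (by omega)
    have k1 : a + ((1 : ℕ) : ℝ) * h = a + h := by push_cast; ring
    rw [k1] at l1
    have k2 : a + h - h = a := by ring
    rw [k2, hφa] at hD
    have hm1 : (1 - θ) * φ (a + h + h) ≤ (1 - θ) * (E0 + 2 * φ (a + h) - E1) :=
      mul_le_mul_of_nonneg_left (by linarith) (by linarith)
    have hm2 : θ * (7 / 8 * E1) ≤ θ * φ (a + h) := mul_le_mul_of_nonneg_left l1 hθ0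
    have hm4 : θ * E0 ≥ 0 := mul_nonneg hθ0 hE0.le
    have hm5 : θ * E1 ≤ 1 * E1 := mul_le_mul_of_nonneg_right hθ1 hE1.le
    nlinarith

/-- second differences of convex functions increase with the mesh -/
theorem second_diff_mono (φ : ℝ → ℝ) (hφ : ConvexOn ℝ univ φ) (t h T : ℝ) (hh : 0 ≤ h)
    (hT : h ≤ |T|) :
    φ (t + h) + φ (t - h) - 2 * φ t ≤ φ (t + T) + φ (t - T) - 2 * φ t := by
  have h1 := second_diff_mono_aux φ hφ t h |T| hh hT
  rcases abs_choice T with h2 | h2
  · rw [h2] at h1
    linarith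
  · rw [h2] at h1
    have e1 : t + -T = t - T := by ring
    have e2 : t - -T = t + T := by ring
    rw [e1, e2] at h1
    linarith

end FPPX
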