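import Pool.Agent.Lib.MP_fa364e_pr.Mg.G001

/-! Elementary facts on lattice points, the sup norm and rounding. -/

namespace FPPX

open MeasureTheory ProbabilityTheory Filter Set
open scoped Topology

variable {d : ℕ}

lemma tr_add (u v : V d) : tr (u + v) = tr u + tr v := by
  funext i; simp [tr]

lemma tr_sub (u v : V d) : tr (u - v) = tr u - tr v := by
  funext i; simp [tr]

lemma tr_neg (u : V d) : tr (-u) = -tr u := by
  funext i; simp [tr]

lemma tr_zero : tr (0 : V d) = 0 := by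
  funext i; simp [tr]

lemma tr_nsmul (n : ℕ) (u : V d) : tr (n • u) = (n : ℝ) • tr u := by
  funext i; simp [tr]

lemma nm_nonneg (u : V d) : 0 ≤ nm u := norm_nonneg _

lemma nm_zero : nm (0 : V d) = 0 := by simp [nm, tr_zero]

lemma nm_add (u v : V d) : nm (u + v) ≤ nm u + nm v := by
  unfold nm; rw [tr_add]; exact norm_add_le _ _

lemma nm_neg (u : V d) : nm (-u) = nm u := by
  unfold nm; rw [tr_neg, norm_neg]

lemma nm_sub_comm (u v : V d) : nm (u - v) = nm (v - u) := by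
  rw [← nm_neg, neg_sub]

lemma nm_sub_le (u v : V d) : nm (u - v) ≤ nm u + nm v := by
  rw [sub_eq_add_neg]; exact (nm_add _ _).trans (by rw [nm_neg])

lemma one_le_nm {u : V d} (hu : u ≠ 0) : 1 ≤ nm u := by
  obtain ⟨i, hi⟩ : ∃ i, u i ≠ 0 := by
    by_contra h
    push Not at h
    exact hu (funext h)
  have h1 : ‖tr u i‖ ≤ ‖tr u‖ := norm_le_pi_norm _ i
  have h2 : (1 : ℝ) ≤ ‖tr u i‖ := by
    simp only [tr, Real.norm_eq_abs]
    exact_mod_cast Int.one_le_abs hi
  exact h2.trans h1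

lemma norm_rd_sub (x : E d) : ‖tr (rd x) - x‖ ≤ 1 / 2 := by
  rw [pi_norm_le_iff_of_nonneg (by norm_num)]
  intro i
  simp only [tr, rd, Pi.sub_apply, Real.norm_eq_abs]
  rw [abs_sub_comm]
  exact abs_sub_round (x i)

lemma rd_tr (u : V d) : rd (tr u) = u := by
  funext i; simp [rd, tr]

lemma nm_rd_le (x : E d) : nm (rd x) ≤ ‖x‖ + 1 / 2 := by
  have h := norm_rd_sub x
  have h2 : tr (rd x) = x + (tr (rd x) - x) := by abel
  unfold nm
  rw [h2]
  exact (norm_add_le _ _).trans (by linarith)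

lemma bl_eq_Icc (r : ℝ) (hr : 0 ≤ r) : {x : V d | nm x ≤ r} =
    (↑(Finset.Icc (fun _ => -⌊r⌋ : V d) (fun _ => ⌊r⌋)) : Set (V d)) := by
  ext x
  simp only [mem_ofPred_eq, Finset.coe_Icc, mem_Icc, nm]
  rw [pi_norm_le_iff_of_nonneg hr]
  constructor
  · intro h
    constructor <;> intro i
    · have := (abs_le.mp (h i)).1
      simp only [tr] at this
      have h2 : -(x i : ℝ) ≤ r := by linarith
      have : -x i ≤ ⌊r⌋ := Int.le_floor.mpr (by push_cast; exact h2)
      show -⌊r⌋ ≤ x i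
      linarith
    · have := (abs_le.mp (h i)).2
      exact Int.le_floor.mpr this
  · rintro ⟨h1, h2⟩ i
    rw [Real.norm_eq_abs, abs_le]
    have e1 : -⌊r⌋ ≤ x i := h1 i
    have e2 : x i ≤ ⌊r⌋ := h2 i
    have e3 := Int.floor_le r
    have e4 : ((-⌊r⌋ : ℤ) : ℝ) ≤ (x i : ℝ) := by exact_mod_cast e1
    have e5 : (x i : ℝ) ≤ ((⌊r⌋ : ℤ) : ℝ) := by exact_mod_cast e2
    push_cast at e4
    simp only [tr]
    constructor <;> linarith

lemma finite_bl (r : ℝ) : {x : V d | nm x ≤ r}.Finite := by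
  rcases lt_or_ge r 0 with h | h
  · have : {x : V d | nm x ≤ r} = ∅ := by
      ext x
      simp only [mem_ofPred_eq, mem_empty_iff_false, iff_false, not_le]
      exact h.trans_le (norm_nonneg _)
    rw [this]; exact finite_empty
  · rw [bl_eq_Icc r h]
    exact Finset.finite_toSet _

/-- number of lattice points in a ball -/
lemma card_bl (r : ℝ) (hr : 0 ≤ r) : ({x : V d | nm x ≤ r}.ncard : ℝ) ≤ (2 * r + 1) ^ d := by
  rw [bl_eq_Icc r hr, Set.ncard_coe_finset, Pi.card_Icc]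
  push_cast
  rw [Finset.prod_const, Finset.card_univ, Fintype.card_fin]
  apply pow_le_pow_left₀ (by positivity)
  rw [Int.card_Icc]
  have h1 : 0 ≤ ⌊r⌋ := Int.floor_nonneg.mpr hr
  have h2 : ((⌊r⌋ + 1 - -⌊r⌋).toNat : ℝ) = ((⌊r⌋ + 1 - -⌊r⌋ : ℤ) : ℝ) := by
    exact_mod_cast Int.toNat_of_nonneg (by linarith)
  rw [h2]
  push_cast
  have := Int.floor_le r
  linarith

lemma sh_bl (x u : V d) (r : ℝ) : sh x (bl u r) = bl (u + x) r := by
  ext z
  simp only [sh, bl, mem_ofPred_eq, sub_sub, add_comm x u]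

end FPPX
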